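import Mathlib
import Pool.Agent.H104R3.EG.Stmts

set_option autoImplicit false
set_option linter.all false

/-! Induction of systems from a subgroup (task H104-EG IndR). -/

namespace Pool.Agent.H455R3.EG

open Pool.Agent.H104R3.EG

section

variable {G : Type} [Group G] (H : Subgroup G) (S' : Sys H)

def KI : Option (Option S'.ι) → Subgroup G
  | none => ⊥
  | some none => H
  | some (some i) => (S'.K i).map H.subtype

def nxI (e : Fin 2) : Option (Option S'.ι) → Option (Option S'.ι)
  | none => if e = 0 then some (some S'.root) else some none
  | some none => some none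
  | some (some i) => some (some (S'.nx e i))

def elI (e : Fin 2) : Option (Option S'.ι) → G
  | none => 1
  | some none => 1
  | some (some i) => (S'.el e i : G)

theorem reachI_none : Reach (nxI H S') (elI H S') none none 1 := Reach.base

theorem reachI_h : Reach (nxI H S') (elI H S') none (some none) 1 := by
  have h := Reach.step 1 none 1 (reachI_none H S')
  simpa [nxI, elI] using h

theorem reachI_some (i : S'.ι) (g : H) (h : Reach S'.nx S'.el S'.root i g) :
    Reach (nxI H S') (elI H S') none (some (some i)) (g : G) := by
  induction h with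
  | base =>
    have h := Reach.step 0 none 1 (reachI_none H S')
    simpa [nxI, elI] using h
  | step e i g _ ih =>
    have h := Reach.step e (some (some i)) (g : G) ih
    simpa [nxI, elI] using h

/-- the induced system -/
def indSys [Finite G] : Sys G where
  ι := Option (Option S'.ι)
  fin := by
    have := S'.fin
    infer_instance
  big := by
    have := S'.fin
    have h := S'.big
    rw [Finite.card_option, Finite.card_option]
    omega
  K := KI H S'
  nx := nxI H S'
  el := elI H S'
  cond := by
    intro e i x hx
    match i with
    | none =>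
      simp only [KI, Subgroup.mem_bot] at hx
      subst hx
      simp only [elI, inv_one, mul_one]
      exact Subgroup.one_mem _
    | some none =>
      simpa [elI, nxI, KI] using hx
    | some (some i) =>
      simp only [KI, Subgroup.mem_map] at hx
      obtain ⟨y, hy, rfl⟩ := hx
      simp only [KI, nxI, elI, Subgroup.mem_map]
      exact ⟨_, S'.cond e i y hy, by simp⟩
  root := none
  root_bot := rfl
  reach := by
    intro i
    match i with
    | none => exact ⟨1, reachI_none H S'⟩
    | some none => exact ⟨1, reachI_h H S'⟩
    | some (some i) =>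
      obtain ⟨g, hg⟩ := S'.reach i
      exact ⟨g, reachI_some H S' i g hg⟩

end

theorem indR : IndR := by
  intro G _ _ H n P hP
  obtain ⟨S', hn, hS'⟩ := hP
  have hfin := S'.fin
  refine ⟨indSys H S', ?_, ?_⟩
  · have : Fintype S'.ι := Fintype.ofFinite _
    have h1 : Nat.card (Σ i : Option (Option S'.ι), G ⧸ KI H S' i) =
        Nat.card G + (H.index + ∑ i, (S'.K i).index * H.index) := by
      rw [Nat.card_sigma, Fintype.sum_option, Fintype.sum_option]
      congr 1
      · exact Subgroup.index_bot
      · congr 1
        refine Finset.sum_congr rfl (fun i _ => ?_)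
        exact Subgroup.index_map_subtype (S'.K i)
    have h2 : Nat.card (Σ i : S'.ι, H ⧸ S'.K i) = ∑ i, (S'.K i).index := by
      rw [Nat.card_sigma]
      rfl
    have h3 : Nat.card (Σ i : (indSys H S').ι, G ⧸ (indSys H S').K i) =
      Nat.card (Σ i : Option (Option S'.ι), G ⧸ KI H S' i) := rfl
    rw [h3, h1, ← Finset.sum_mul, ← h2, mul_comm H.index n]
    have h4 := Nat.mul_le_mul_right H.index hn
    omega
  · intro α hα k
    have hH : ∀ h : H, (α k)⁻¹ * α (k * h) ∈ H := by
      intro h
      have h1 := hα (some none) 1 1 (reachI_h H S') (reachI_h H S') k (k * h)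
        (by
          show _ ∈ H
          simp)
      have h2 : (α k * 1)⁻¹ * (α (k * h) * 1) ∈ H := h1
      simpa using h2
    refine ⟨fun h => ⟨(α k)⁻¹ * α (k * h), hH h⟩, ?_, ?_⟩
    · apply hS'
      intro i g g' hg hg' k1 k2 h12
      have h1 := hα (some (some i)) g g' (reachI_some H S' i g hg) (reachI_some H S' i g' hg')
        (k * k1) (k * k2) (by
          show _ ∈ (S'.K i).map H.subtype
          rw [Subgroup.mem_map]
          refine ⟨_, h12, ?_⟩
          simp [mul_assoc])
      have h2 : (α (k * k1) * (g : G))⁻¹ * (α (k * k2) * (g' : G)) ∈ (S'.K i).map H.subtype := h1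
      rw [Subgroup.mem_map] at h2
      obtain ⟨y, hy, hy2⟩ := h2
      have h3 : (((⟨(α k)⁻¹ * α (k * k1), hH k1⟩ : H) * g)⁻¹ *
          ((⟨(α k)⁻¹ * α (k * k2), hH k2⟩ : H) * g')) = y := by
        apply Subtype.ext
        have h4 : (y : G) = (α (k * k1) * (g : G))⁻¹ * (α (k * k2) * (g' : G)) := hy2
        rw [h4]
        simp [mul_assoc]
      show _ ∈ S'.K i
      rw [h3]
      exact hy
    · intro h
      simp

end Pool.Agent.H455R3.EG
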